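import Pool.Agent.helper35.LV.Spec

set_option autoImplicit false

namespace Pool.Agent.LV

open Matrix Pool.Agent.H48SL Pool.Agent.UG

theorem HX3_deg (α κ l : ℕ → ℚ) (hα : ∀ t, α t ≠ 0) (hκ : ∀ t, κ t ≠ 0) (t : ℕ) :
    (AB α κ l t).2.natDegree = 2 ^ t ∧ (AB α κ l t).1.natDegree < 2 ^ (t + 1) := by
  induction t with
  | zero =>
    refine ⟨?_, ?_⟩
    · simp [AB]
    · simp [AB]
  | succ t ih =>
    obtain ⟨h1, h2⟩ := ih
    have h3 : (Polynomial.C (κ t) * (AB α κ l t).2 ^ 2).natDegree = 2 ^ (t + 1) := by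
      rw [Polynomial.natDegree_C_mul (hκ t), Polynomial.natDegree_pow, h1, pow_succ, mul_comm]
    have h4 : (Polynomial.C (l t) * (AB α κ l t).2).natDegree < 2 ^ (t + 1) := by
      refine lt_of_le_of_lt (Polynomial.natDegree_C_mul_le _ _) ?_
      rw [h1]
      exact Nat.pow_lt_pow_right (by norm_num) (Nat.lt_succ_self t)
    have h5 : ((AB α κ l t).1 + Polynomial.C (κ t) * (AB α κ l t).2 ^ 2).natDegree = 2 ^ (t + 1) := by
      rw [Polynomial.natDegree_add_eq_right_of_natDegree_lt (by rw [h3]; exact h2), h3]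
    refine ⟨?_, ?_⟩
    · show ((AB α κ l t).1 + Polynomial.C (κ t) * (AB α κ l t).2 ^ 2 +
        Polynomial.C (l t) * (AB α κ l t).2).natDegree = 2 ^ (t + 1)
      rw [Polynomial.natDegree_add_eq_left_of_natDegree_lt (by rw [h5]; exact h4), h5]
    · show (Polynomial.C (α t) * (AB α κ l t).2).natDegree < 2 ^ (t + 1 + 1)
      rw [Polynomial.natDegree_C_mul (hα t), h1]
      exact Nat.pow_lt_pow_right (by norm_num) (by omega)

theorem HX3_zero (α κ l : ℕ → ℚ) (t : ℕ) :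
    (AB α κ l t).1.eval 0 = 0 ∧ (AB α κ l t).2.eval 0 = 0 := by
  induction t with
  | zero => simp [AB]
  | succ t ih =>
    obtain ⟨h1, h2⟩ := ih
    simp [AB, h1, h2]

theorem HX3_den (γ : ℚ) (hγ : γ ≠ 0) (P : Polynomial ℚ) :
    ∃ D : ℕ, 1 ≤ D ∧ ∀ (k : ℕ) (s : ℤ), ∃ m : ℤ,
      (P * Polynomial.X).eval (((D * k : ℕ) : ℚ) * s) = m * γ := by
  induction P using Polynomial.induction_on' with
  | add p q hp hq =>
    obtain ⟨D₁, hD₁, h₁⟩ := hp
    obtain ⟨D₂, hD₂, h₂⟩ := hq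
    refine ⟨D₁ * D₂, Nat.mul_pos hD₁ hD₂, fun k s => ?_⟩
    obtain ⟨m₁, hm₁⟩ := h₁ (D₂ * k) s
    obtain ⟨m₂, hm₂⟩ := h₂ (D₁ * k) s
    have e1 : D₁ * (D₂ * k) = D₁ * D₂ * k := by ring
    have e2 : D₂ * (D₁ * k) = D₁ * D₂ * k := by ring
    rw [e1] at hm₁
    rw [e2] at hm₂
    refine ⟨m₁ + m₂, ?_⟩
    rw [add_mul, Polynomial.eval_add, hm₁, hm₂]
    push_cast
    ring
  | monomial n a =>
    refine ⟨(a / γ).den, (a / γ).den_pos, fun k s => ?_⟩
    refine ⟨(a / γ).num * ((a / γ).den : ℤ) ^ n * ((k : ℤ) * s) ^ (n + 1), ?_⟩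
    have h1 : a / γ * ((a / γ).den : ℚ) = (a / γ).num := Rat.mul_den_eq_num _
    have h2 : a = (a / γ) * γ := by field_simp
    rw [Polynomial.eval_mul, Polynomial.eval_monomial, Polynomial.eval_X]
    push_cast
    rw [← h1]
    calc a * (((a / γ).den : ℚ) * k * s) ^ n * (((a / γ).den : ℚ) * k * s)
        = (a / γ) * γ * (((a / γ).den : ℚ) * k * s) ^ n * (((a / γ).den : ℚ) * k * s) := by rw [← h2]
      _ = a / γ * ((a / γ).den : ℚ) * ((a / γ).den : ℚ) ^ n * ((k : ℚ) * s) ^ (n + 1) * γ := by ring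

theorem HX3_den2 (γ : ℚ) (hγ : γ ≠ 0) (P : Polynomial ℚ) (hP : P.eval 0 = 0) :
    ∃ D : ℕ, 1 ≤ D ∧ ∀ (k : ℕ) (s : ℤ), ∃ m : ℤ, P.eval (((D * k : ℕ) : ℚ) * s) = m * γ := by
  obtain ⟨D, hD, h⟩ := HX3_den γ hγ P.divX
  refine ⟨D, hD, fun k s => ?_⟩
  obtain ⟨m, hm⟩ := h k s
  refine ⟨m, ?_⟩
  have h1 : P.divX * Polynomial.X = P := by
    have h2 := Polynomial.divX_mul_X_add P
    have h3 : P.coeff 0 = 0 := by rw [Polynomial.coeff_zero_eq_eval_zero, hP]
    rw [h3, Polynomial.C_0, add_zero] at h2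
    exact h2
  rw [h1] at hm
  exact hm

theorem HX3_van (D : ℕ) (hD : 1 ≤ D) (F : Polynomial ℚ) (h : ∀ s : ℤ, F.eval ((D : ℚ) * s) = 0) : F = 0 := by
  refine Polynomial.eq_zero_of_infinite_isRoot F ?_
  have hD0 : (D : ℚ) ≠ 0 := by exact_mod_cast (by omega : D ≠ 0)
  have h1 : Function.Injective (fun s : ℤ => (D : ℚ) * s) := by
    intro a b hab
    have h2 : (a : ℚ) = b := mul_left_cancel₀ hD0 hab
    exact_mod_cast h2
  refine (Set.infinite_range_of_injective h1).mono ?_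
  rintro _ ⟨s, rfl⟩
  exact h s

theorem HX3 : HX3_stmt := by
  intro α κ l γ hα hκ hγ
  have h0 : ∀ t, ∃ D : ℕ, 1 ≤ D ∧ ∀ (k : ℕ) (s : ℤ), ∃ m : ℤ,
      (AB α κ l t).2.eval (((D * k : ℕ) : ℚ) * s) = m * γ t := fun t =>
    HX3_den2 (γ t) (hγ t) _ (HX3_zero α κ l t).2
  choose d hd1 hd2 using h0
  have hD0 : 1 ≤ ∏ t ∈ Finset.range 6, d t := Nat.one_le_iff_ne_zero.2
    (Finset.prod_ne_zero_iff.2 fun t _ => Nat.one_le_iff_ne_zero.1 (hd1 t))
  refine ⟨∏ t ∈ Finset.range 6, d t, hD0, ?_, ?_⟩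
  · intro s t ht
    obtain ⟨k, hk⟩ := Finset.dvd_prod_of_mem d (Finset.mem_range.2 ht)
    rw [hk]
    exact hd2 t k s
  · obtain ⟨D, hD⟩ : ∃ D : ℕ, D = ∏ t ∈ Finset.range 6, d t := ⟨_, rfl⟩
    rw [← hD]
    have hD1 : 1 ≤ D := by
      rw [hD]
      exact hD0
    by_contra hcon
    push Not at hcon
    have hB := (HX3_deg α κ l hα hκ 6).1
    have hA : (AB α κ l 6).1.natDegree = 2 ^ 5 := by
      show (Polynomial.C (α 5) * (AB α κ l 5).2).natDegree = 2 ^ 5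
      rw [Polynomial.natDegree_C_mul (hα 5), (HX3_deg α κ l hα hκ 5).1]
    have hA0 : (AB α κ l 6).1 ≠ 0 := by
      intro h
      rw [h, Polynomial.natDegree_zero] at hA
      norm_num at hA
    obtain ⟨s₂, hs₂⟩ : ∃ s₂ : ℤ, (AB α κ l 6).1.eval ((D : ℚ) * s₂) ≠ 0 := by
      by_contra h
      push Not at h
      exact hA0 (HX3_van D hD1 _ h)
    have hF := HX3_van D hD1 ((AB α κ l 6).1 * Polynomial.C ((AB α κ l 6).2.eval ((D : ℚ) * s₂) - D * s₂) -
      Polynomial.C ((AB α κ l 6).1.eval ((D : ℚ) * s₂)) * ((AB α κ l 6).2 - Polynomial.X)) (by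
        intro s
        have h1 := hcon s s₂
        simp only [Polynomial.eval_sub, Polynomial.eval_mul, Polynomial.eval_C, Polynomial.eval_X]
        linarith)
    have h2 := congrArg (fun P : Polynomial ℚ => P.coeff 64) hF
    simp only [Polynomial.coeff_sub, Polynomial.coeff_mul_C, Polynomial.coeff_C_mul, Polynomial.coeff_zero] at h2
    have h3 : (AB α κ l 6).1.coeff 64 = 0 :=
      Polynomial.coeff_eq_zero_of_natDegree_lt (by rw [hA]; norm_num)
    have h4 : (Polynomial.X : Polynomial ℚ).coeff 64 = 0 := by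
      rw [Polynomial.coeff_X]
      norm_num
    have h5 : (AB α κ l 6).2.coeff 64 ≠ 0 := by
      have h6 : (AB α κ l 6).2.natDegree = 64 := by
        rw [hB]
        norm_num
      rw [← h6]
      have h7 : (AB α κ l 6).2 ≠ 0 := by
        intro h
        rw [h, Polynomial.natDegree_zero] at h6
        norm_num at h6
      exact Polynomial.leadingCoeff_ne_zero.2 h7
    rw [h3, h4, zero_mul, sub_zero, zero_sub, neg_eq_zero] at h2
    exact (mul_ne_zero hs₂ h5) h2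

end Pool.Agent.LV
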